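import Pool.Agent.KRL.Lower

/-!
# A nonzero common zero

`n` complex polynomials in `n + 1` variables which vanish at the origin have a common zero
different from the origin (Krull's height theorem and the Nullstellensatz).
-/

set_option autoImplicit false

namespace Pool.Agent.KRL

open MvPolynomial

/-- Fewer polynomials than variables, all vanishing at `a`: there is a common zero `x ≠ a`. -/
theorem exists_ne_zero_of_lt {σ : Type} [Finite σ] {N : ℕ} (hN : N < Nat.card σ)
    (F : Fin N → MvPolynomial σ ℂ) (a : σ → ℂ) (h : ∀ j, eval a (F j) = 0) :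
    ∃ x : σ → ℂ, x ≠ a ∧ ∀ j, eval x (F j) = 0 := by
  by_contra hne
  push Not at hne
  have := card_le_of_unique_zero F a fun z => ⟨fun hz => by
    by_contra hza
    obtain ⟨j, hj⟩ := hne z hza
    exact hj (hz j), fun hz j => by rw [hz]; exact h j⟩
  omega

/-- `n` polynomials in `n + 1` variables which vanish at `0` have a nonzero common zero. -/
theorem exists_nonzero_zero {n : ℕ} (f : Fin n → MvPolynomial (Fin (n + 1)) ℂ)
    (h : ∀ i, eval (0 : Fin (n + 1) → ℂ) (f i) = 0) :
    ∃ x : Fin (n + 1) → ℂ, x ≠ 0 ∧ ∀ i, eval x (f i) = 0 :=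
  exists_ne_zero_of_lt (by simp) f 0 h

end Pool.Agent.KRL
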