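import Mathlib

/-!
# Polynomial `k`-regular maps `ℂ^n → ℂ^N` need `N ≥ n (k - 1) + 1`

If `f` is `k`-regular and polynomial, the `N` polynomials `l f_j(0) + f_j(x_2) + ... + f_j(x_k)` in
the `n (k - 1) + 1` variables `(l, x_2, ..., x_k)` have exactly one common zero, so
`N ≥ n (k - 1) + 1` by Krull's height theorem.
-/

set_option autoImplicit false

namespace Pool.Agent.KRL

open MvPolynomial

/-- Translation of the variables. -/
noncomputable def shift {σ : Type} (c : σ → ℂ) : MvPolynomial σ ℂ ≃ₐ[ℂ] MvPolynomial σ ℂ :=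
  AlgEquiv.ofAlgHom (aeval fun s => X s + C (c s)) (aeval fun s => X s - C (c s))
    (by ext s; simp) (by ext s; simp)

theorem eval_shift {σ : Type} (c a : σ → ℂ) (p : MvPolynomial σ ℂ) :
    eval a (shift c p) = eval (fun s => a s + c s) p := by
  have h : ((aeval a : MvPolynomial σ ℂ →ₐ[ℂ] ℂ).comp (shift c).toAlgHom)
      = (aeval (fun s => a s + c s) : MvPolynomial σ ℂ →ₐ[ℂ] ℂ) := by
    ext s
    simp [shift]
  have h2 := DFunLike.congr_fun h p
  simpa [MvPolynomial.aeval_eq_eval] using h2

theorem height_vanishingIdeal {σ : Type} (a b : σ → ℂ) :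
    (vanishingIdeal ℂ {b} : Ideal (MvPolynomial σ ℂ)).height
      = (vanishingIdeal ℂ {a} : Ideal (MvPolynomial σ ℂ)).height := by
  have h : (vanishingIdeal ℂ {a} : Ideal (MvPolynomial σ ℂ)).comap
      (shift fun s => b s - a s).toRingEquiv = vanishingIdeal ℂ {b} := by
    ext p
    rw [Ideal.mem_comap, mem_vanishingIdeal_singleton_iff, mem_vanishingIdeal_singleton_iff]
    change (aeval a) (shift (fun s => b s - a s) p) = 0 ↔ _
    rw [MvPolynomial.aeval_eq_eval, MvPolynomial.aeval_eq_eval]
    rw [eval_shift]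
    simp
  rw [← h, RingEquiv.height_comap]

/-- A system of polynomial equations with exactly one solution has at least as many equations as
variables. -/
theorem card_le_of_unique_zero {σ : Type} [Finite σ] {N : ℕ}
    (F : Fin N → MvPolynomial σ ℂ) (a : σ → ℂ)
    (h : ∀ z : σ → ℂ, (∀ j, eval z (F j) = 0) ↔ z = a) : Nat.card σ ≤ N := by
  classical
  set I : Ideal (MvPolynomial σ ℂ) := Ideal.span (Set.range F) with hI
  have hz : zeroLocus ℂ I = {a} := by
    ext z
    rw [hI, zeroLocus_span, Set.mem_ofPred_eq, Set.mem_singleton_iff, ← h z]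
    constructor
    · intro hz j
      have := hz (F j) ⟨j, rfl⟩
      rwa [MvPolynomial.aeval_eq_eval] at this
    · rintro hz _ ⟨j, rfl⟩
      rw [MvPolynomial.aeval_eq_eval]
      exact hz j
  have hrad : I.radical = vanishingIdeal ℂ {a} := by
    rw [← vanishingIdeal_zeroLocus_eq_radical (k := ℂ) (K := ℂ), hz]
  have hmin : vanishingIdeal ℂ {a} ∈ I.minimalPrimes := by
    rw [← Ideal.radical_minimalPrimes, hrad, Ideal.minimalPrimes_eq_subsingleton_self]
    exact Set.mem_singleton _
  have h1 : (vanishingIdeal ℂ {a} : Ideal (MvPolynomial σ ℂ)).height ≤ (Set.range F).ncard :=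
    Ideal.height_le_card_of_mem_minimalPrimes_span (Set.finite_range F) hmin
  have h2 : (Set.range F).ncard ≤ N := by
    have := Set.ncard_image_le (f := F) (s := Set.univ) Set.finite_univ
    rw [Set.image_univ, Set.ncard_univ, Nat.card_eq_fintype_card, Fintype.card_fin] at this
    exact this
  have h3 : ringKrullDim (MvPolynomial σ ℂ) ≤ (N : WithBot ℕ∞) := by
    rw [ringKrullDim_le_iff_isMaximal_height_le]
    intro m hm
    obtain ⟨b, rfl⟩ := isMaximal_iff_eq_vanishingIdeal_singleton.1 hm
    rw [height_vanishingIdeal a b]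
    have h4 : (vanishingIdeal ℂ {a} : Ideal (MvPolynomial σ ℂ)).height ≤ (N : ℕ∞) :=
      h1.trans (by exact_mod_cast h2)
    exact_mod_cast h4
  rw [MvPolynomial.ringKrullDim_of_isNoetherianRing, ringKrullDim_eq_zero_of_field, zero_add] at h3
  exact_mod_cast h3

end Pool.Agent.KRL
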