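import Pool.Agent.KRL.Lower
import Pool.Agent.KReg.Final

/-!
# The lower bound `N ≥ n (k - 1) + 1` for polynomial `k`-regular maps
-/

set_option autoImplicit false

namespace Pool.Agent.KRL

open MvPolynomial Pool.Agent.KReg

/-- `k`-regularity for at most `k` points, with coefficients indexed by the points. -/
theorem coeff_eq_zero {k n N : ℕ} (hn : 1 ≤ n) {f : (Fin n → ℂ) → (Fin N → ℂ)}
    (hr : IsKRegular k n N f) (T : Finset (Fin n → ℂ)) (hT : T.card ≤ k) (c : (Fin n → ℂ) → ℂ)
    (h : ∑ y ∈ T, c y • f y = 0) : ∀ y ∈ T, c y = 0 := by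
  classical
  haveI : Nonempty (Fin n) := ⟨⟨0, hn⟩⟩
  obtain ⟨T', hTT, hc⟩ := Infinite.exists_superset_card_eq T k hT
  let e : Fin k ≃ T' := (Finset.equivFinOfCardEq hc).symm
  have hli := hr.2 (fun i => (e i : Fin n → ℂ)) (fun i j hij => e.injective (Subtype.ext hij))
  rw [Fintype.linearIndependent_iff] at hli
  have hsum : ∑ i, (if ((e i : Fin n → ℂ)) ∈ T then c (e i) else 0) • f (e i) = 0 := by
    have h1 : ∑ i, (if ((e i : Fin n → ℂ)) ∈ T then c (e i) else 0) • f (e i)
        = ∑ y : T', (if (y : Fin n → ℂ) ∈ T then c y else 0) • f y :=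
      Equiv.sum_comp e (fun y : T' => (if (y : Fin n → ℂ) ∈ T then c y else 0) • f y)
    rw [h1, Finset.sum_coe_sort T' (fun y => (if y ∈ T then c y else 0) • f y)]
    rw [← h]
    symm
    refine Finset.sum_subset_zero_on_sdiff hTT ?_ ?_
    · intro y hy
      rw [Finset.mem_sdiff] at hy
      simp [hy.2]
    · intro y hy
      simp [hy]
  intro y hy
  have h2 := hli _ hsum (e.symm ⟨y, hTT hy⟩)
  simpa [hy] using h2

theorem lower_bound {k n N : ℕ} (hk : 1 ≤ k) (hn : 1 ≤ n) {f : (Fin n → ℂ) → (Fin N → ℂ)}
    (hf : IsPolynomialMap n N f) (hr : IsKRegular k n N f) : n * (k - 1) + 1 ≤ N := by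
  classical
  obtain ⟨P, hP⟩ := hf
  let σ : Type := Option (Fin (k - 1) × Fin n)
  let F : Fin N → MvPolynomial σ ℂ := fun j =>
    X none * C (eval 0 (P j)) +
      ∑ i : Fin (k - 1), rename (fun t => (some (i, t) : σ)) (P j)
  let a : σ → ℂ := fun s => match s with
    | none => -((k - 1 : ℕ) : ℂ)
    | some _ => 0
  have hev : ∀ (z : σ → ℂ) (j : Fin N), eval z (F j)
      = z none * f 0 j + ∑ i : Fin (k - 1), f (fun t => z (some (i, t))) j := by
    intro z j
    simp only [F, map_add, map_mul, eval_X, eval_C, map_sum, eval_rename, hP]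
    rfl
  have key : ∀ z : σ → ℂ, (∀ j, eval z (F j) = 0) ↔ z = a := by
    intro z
    constructor
    · intro hz
      let x : Fin (k - 1) → (Fin n → ℂ) := fun i t => z (some (i, t))
      let T : Finset (Fin n → ℂ) := insert 0 (Finset.univ.image x)
      let c : (Fin n → ℂ) → ℂ := fun y =>
        (if y = 0 then z none else 0) + ((Finset.univ.filter fun i => x i = y).card : ℂ)
      have hT : T.card ≤ k := by
        refine (Finset.card_insert_le _ _).trans ?_
        have := Finset.card_image_le (s := (Finset.univ : Finset (Fin (k - 1)))) (f := x)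
        rw [Finset.card_univ, Fintype.card_fin] at this
        omega
      have hsum : ∑ y ∈ T, c y • f y = 0 := by
        have h1 : ∑ y ∈ T, (if y = 0 then z none else 0) • f y = z none • f 0 := by
          rw [Finset.sum_eq_single (0 : Fin n → ℂ)]
          · simp
          · intro y _ hy; simp [hy]
          · intro h0; exact absurd (Finset.mem_insert_self _ _) h0
        have h2 : ∑ y ∈ T, ((Finset.univ.filter fun i => x i = y).card : ℂ) • f y
            = ∑ i, f (x i) := by
          rw [← Finset.sum_fiberwise_of_maps_to (g := x) (t := T) (s := Finset.univ)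
            (f := fun i => f (x i))
            (fun i _ => Finset.mem_insert_of_mem (Finset.mem_image_of_mem x (Finset.mem_univ i)))]
          refine Finset.sum_congr rfl fun y _ => ?_
          have h3 : ∑ i ∈ Finset.univ.filter (fun i => x i = y), f (x i)
              = ∑ _i ∈ Finset.univ.filter (fun i => x i = y), f y :=
            Finset.sum_congr rfl fun i hi => by rw [(Finset.mem_filter.1 hi).2]
          rw [h3, Finset.sum_const, ← Nat.cast_smul_eq_nsmul ℂ]
        have h3 : z none • f 0 + ∑ i, f (x i) = 0 := by
          funext j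
          have := hz j
          rw [hev] at this
          simpa [Finset.sum_apply] using this
        simp only [c, add_smul, Finset.sum_add_distrib]
        rw [h1, h2, h3]
      have hc := coeff_eq_zero hn hr T hT c hsum
      have hx : ∀ i, x i = 0 := by
        intro i
        by_contra hi
        have h4 := hc (x i) (Finset.mem_insert_of_mem (Finset.mem_image_of_mem x (Finset.mem_univ i)))
        simp only [c, if_neg hi, zero_add] at h4
        have h5 : (Finset.univ.filter fun i' => x i' = x i).card = 0 := by exact_mod_cast h4
        rw [Finset.card_eq_zero] at h5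
        have h6 : i ∈ Finset.univ.filter fun i' => x i' = x i := by simp
        rw [h5] at h6
        exact absurd h6 (Finset.notMem_empty _)
      have h0 := hc 0 (Finset.mem_insert_self _ _)
      have h7 : (Finset.univ.filter fun i => x i = 0) = Finset.univ :=
        Finset.filter_true_of_mem fun i _ => hx i
      simp only [c, if_true, h7, Finset.card_univ, Fintype.card_fin] at h0
      funext s
      match s with
      | none => exact eq_neg_of_add_eq_zero_left h0
      | some (i, t) => exact congrFun (hx i) t
    · rintro rfl j
      rw [hev]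
      have h1 : ∀ i : Fin (k - 1), (fun t : Fin n => a (some (i, t))) = 0 := fun i => by
        funext t; rfl
      simp only [h1]
      simp [a]
  have h1 := card_le_of_unique_zero F a key
  have h2 : Nat.card σ = n * (k - 1) + 1 := by
    simp only [σ, Nat.card_eq_fintype_card, Fintype.card_option, Fintype.card_prod,
      Fintype.card_fin]
    ring
  omega

end Pool.Agent.KRL
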